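import Pool.Agent.H34.CGS.Stmts

/-!
Row SDA of the board cgs (MP_286349_an): the Schwinger-Dyson equation at an inner letter.
-/

set_option autoImplicit false

noncomputable section

namespace Pool.CGS

open Pool.CGR

namespace SDA

theorem ev_append {α A : Type} [Monoid A] (x : α → A) (u v : List α) :
    ev x (u ++ v) = ev x u * ev x v := by
  simp [ev]

theorem ev_inl {m : ℕ} {A : Type} [Monoid A] (x S : Fin m → A) (a : List (Fin m)) :
    ev (Sum.elim x S) (a.map Sum.inl) = ev x a := by
  simp [ev, Function.comp_def]

end SDA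

theorem sda_thm : SDAStmt := by
  intro m A _ τ hτ x S hS j a c b
  have h1 := hS j (b ++ (c ++ a).map Sum.inl)
  have hL : τ (ev (Sum.elim x S) (a.map Sum.inl ++ Sum.inr j :: b) * ev x c) =
      τ (S j * ev (Sum.elim x S) (b ++ (c ++ a).map Sum.inl)) := by
    rw [SDA.ev_append, SDA.ev_append, SDA.ev_inl, SDA.ev_inl, SDA.ev_append]
    have e1 : ev (Sum.elim x S) (Sum.inr j :: b) = S j * ev (Sum.elim x S) b := by
      simp [ev]
    rw [e1, mul_assoc (ev x a), hτ.comm (ev x a)]
    simp only [mul_assoc]
  rw [hL, h1]
  unfold dq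
  have hsub : Finset.range b.length ⊆
      Finset.range (b ++ (c ++ a).map (Sum.inl : Fin m → Fin m ⊕ Fin m)).length := by
    intro k hk
    rw [Finset.mem_range] at hk ⊢
    rw [List.length_append]
    omega
  rw [← Finset.sum_subset hsub]
  · refine Finset.sum_congr rfl fun k hk => ?_
    rw [Finset.mem_range] at hk
    rw [List.getElem?_append_left hk]
    by_cases hb : b[k]? = some (Sum.inr j)
    · rw [if_pos hb, if_pos hb]
      rw [List.take_append_of_le_length hk.le, List.drop_append_of_le_length (by omega)]
      congr 1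
      show τ (ev (Sum.elim x S) (b.drop (k + 1) ++ (c ++ a).map Sum.inl)) = _
      rw [SDA.ev_append, SDA.ev_append, SDA.ev_inl, SDA.ev_inl, SDA.ev_append]
      rw [mul_assoc (ev x a), hτ.comm (ev x a)]
      simp only [mul_assoc]
    · rw [if_neg hb, if_neg hb]
  · intro k _ hk
    rw [Finset.mem_range, not_lt] at hk
    rw [if_neg]
    rw [List.getElem?_append_right hk, List.getElem?_map]
    intro h
    cases h2 : (c ++ a)[k - b.length]? with
    | none => rw [h2] at h; simp at h
    | some t => rw [h2] at h; simp at h

end Pool.CGS
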