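import Pool.Agent.H34.CGS.Stmts

/-!
Row SDB of the board cgs (MP_286349_an): the free difference quotient of a word with a letter `inr j`.
-/

set_option autoImplicit false

noncomputable section

namespace Pool.CGS

open Pool.CGR

namespace SDB

theorem ev_inl {m : ℕ} {A : Type} [Monoid A] (x S : Fin m → A) (a : List (Fin m)) :
    ev (Sum.elim x S) (a.map Sum.inl) = ev x a := by
  simp [ev, Function.comp_def]

theorem dq_append {α : Type} [DecidableEq α] (φ : List α → ℂ) (i : α) (u v : List α) :
    dq φ i (u ++ v) =
      (∑ k ∈ Finset.range u.length,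
        if u[k]? = some i then φ (u.take k) * φ (u.drop (k + 1) ++ v) else 0) +
      ∑ k ∈ Finset.range v.length,
        if v[k]? = some i then φ (u ++ v.take k) * φ (v.drop (k + 1)) else 0 := by
  unfold dq
  rw [List.length_append, Finset.sum_range_add]
  congr 1
  · refine Finset.sum_congr rfl fun k hk => ?_
    rw [Finset.mem_range] at hk
    rw [List.getElem?_append_left hk, List.take_append_of_le_length hk.le,
      List.drop_append_of_le_length (by omega)]
  · refine Finset.sum_congr rfl fun k hk => ?_
    rw [List.getElem?_append_right (by omega), Nat.add_sub_cancel_left]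
    have h1 : (u ++ v).take (u.length + k) = u ++ v.take k := by
      rw [List.take_length_add_append]
    have h2 : (u ++ v).drop (u.length + k + 1) = v.drop (k + 1) := by
      rw [add_assoc, List.drop_length_add_append]
    rw [h1, h2]

theorem swap (n : ℕ) (F : ℕ → ℕ → ℂ) :
    ∑ k ∈ Finset.range n, ∑ l ∈ Finset.range k, F l k =
      ∑ l ∈ Finset.range n, ∑ k ∈ Finset.range (n - (l + 1)), F l (l + 1 + k) := by
  rw [Finset.sum_comm' (t' := Finset.range n) (s' := fun l => Finset.Ico (l + 1) n)]
  · refine Finset.sum_congr rfl fun l _ => ?_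
    rw [Finset.sum_Ico_eq_sum_range]
  · intro k l
    rw [Finset.mem_range, Finset.mem_range, Finset.mem_Ico, Finset.mem_range]
    omega

end SDB

theorem sdb_thm (h1 : SDAStmt) : SDBStmt := by
  intro m A _ τ hτ x S hS i j a b
  set φ : List (Fin m ⊕ Fin m) → ℂ := fun W => τ (ev (Sum.elim x S) W) with hφ
  -- SDA with c = []
  have hA : ∀ (a' : List (Fin m)) (b' : List (Fin m ⊕ Fin m)),
      φ (a'.map Sum.inl ++ Sum.inr j :: b') =
        ∑ k ∈ Finset.range b'.length, if b'[k]? = some (Sum.inr j) then
          φ (b'.take k) * φ (a'.map Sum.inl ++ b'.drop (k + 1)) else 0 := by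
    intro a' b'
    have h := h1 m A τ hτ x S hS j a' [] b'
    have e1 : ev x ([] : List (Fin m)) = 1 := rfl
    simp only [e1, mul_one] at h
    exact h
  set u : List (Fin m ⊕ Fin m) := a.map Sum.inl with hu
  rw [SDB.dq_append]
  -- the right side
  have hR : (∑ l ∈ Finset.range b.length, if b[l]? = some (Sum.inr j) then
        φ (b.take l) * dq φ (Sum.inl i) (u ++ b.drop (l + 1)) else 0) =
      (∑ l ∈ Finset.range b.length, if b[l]? = some (Sum.inr j) then
        φ (b.take l) * ∑ k ∈ Finset.range u.length,
          (if u[k]? = some (Sum.inl i) then φ (u.take k) * φ (u.drop (k + 1) ++ b.drop (l + 1))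
            else 0) else 0) +
      ∑ l ∈ Finset.range b.length, ∑ k ∈ Finset.range (b.length - (l + 1)),
        (if b[l]? = some (Sum.inr j) ∧ b[l + 1 + k]? = some (Sum.inl i) then
          φ (b.take l) * φ (u ++ (b.take (l + 1 + k)).drop (l + 1)) * φ (b.drop (l + 1 + k + 1))
          else 0) := by
    rw [← Finset.sum_add_distrib]
    refine Finset.sum_congr rfl fun l _ => ?_
    by_cases hb : b[l]? = some (Sum.inr j)
    · rw [if_pos hb, if_pos hb, SDB.dq_append, mul_add]
      congr 1
      rw [Finset.mul_sum, List.length_drop]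
      refine Finset.sum_congr rfl fun k _ => ?_
      rw [List.getElem?_drop, List.drop_take, List.drop_drop,
        show l + 1 + k - (l + 1) = k by omega, show l + 1 + (k + 1) = l + 1 + k + 1 by omega]
      by_cases hc : b[l + 1 + k]? = some (Sum.inl i)
      · rw [if_pos hc, if_pos ⟨hb, hc⟩]
        ring
      · rw [if_neg hc, if_neg (fun h => hc h.2), mul_zero]
    · rw [if_neg hb, if_neg hb, zero_add]
      refine (Finset.sum_eq_zero fun k _ => ?_).symm
      rw [if_neg (fun h => hb h.1)]
  rw [hR]
  congr 1
  · -- splittings in a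
    have h3 : ∀ k ∈ Finset.range u.length,
        (if u[k]? = some (Sum.inl i) then
          φ (u.take k) * φ (u.drop (k + 1) ++ Sum.inr j :: b) else 0) =
        ∑ l ∈ Finset.range b.length, if u[k]? = some (Sum.inl i) ∧ b[l]? = some (Sum.inr j) then
          φ (b.take l) * (φ (u.take k) * φ (u.drop (k + 1) ++ b.drop (l + 1))) else 0 := by
      intro k _
      by_cases hc : u[k]? = some (Sum.inl i)
      · rw [if_pos hc]
        have h4 : u.drop (k + 1) = (a.drop (k + 1)).map Sum.inl := by
          rw [hu, List.map_drop]
        rw [h4, hA, Finset.mul_sum]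
        refine Finset.sum_congr rfl fun l _ => ?_
        by_cases hb : b[l]? = some (Sum.inr j)
        · rw [if_pos hb, if_pos ⟨hc, hb⟩]
          ring
        · rw [if_neg hb, if_neg (fun h => hb h.2), mul_zero]
      · rw [if_neg hc]
        refine (Finset.sum_eq_zero fun l _ => ?_).symm
        rw [if_neg (fun h => hc h.1)]
    rw [Finset.sum_congr rfl h3, Finset.sum_comm]
    refine Finset.sum_congr rfl fun l _ => ?_
    by_cases hb : b[l]? = some (Sum.inr j)
    · rw [if_pos hb, Finset.mul_sum]
      refine Finset.sum_congr rfl fun k _ => ?_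
      by_cases hc : u[k]? = some (Sum.inl i)
      · rw [if_pos hc, if_pos ⟨hc, hb⟩]
      · rw [if_neg hc, if_neg (fun h => hc h.1), mul_zero]
    · rw [if_neg hb]
      refine Finset.sum_eq_zero fun k _ => ?_
      rw [if_neg (fun h => hb h.2)]
  · -- splittings in b
    rw [List.length_cons, Finset.sum_range_succ', List.getElem?_cons_zero,
      if_neg (by simp), add_zero]
    rw [← SDB.swap b.length (fun l k =>
      if b[l]? = some (Sum.inr j) ∧ b[k]? = some (Sum.inl i) then
          φ (b.take l) * φ (u ++ (b.take k).drop (l + 1)) * φ (b.drop (k + 1)) else 0)]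
    refine Finset.sum_congr rfl fun k hk => ?_
    rw [Finset.mem_range] at hk
    rw [List.getElem?_cons_succ]
    by_cases hc : b[k]? = some (Sum.inl i)
    · rw [if_pos hc, List.take_succ_cons, List.drop_succ_cons, hu, hA, ← hu, Finset.sum_mul,
        List.length_take, min_eq_left hk.le]
      refine Finset.sum_congr rfl fun l hl => ?_
      rw [Finset.mem_range] at hl
      rw [List.getElem?_take_of_lt hl, List.take_take, min_eq_left hl.le]
      by_cases hb : b[l]? = some (Sum.inr j)
      · rw [if_pos hb, if_pos ⟨hb, hc⟩]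
      · rw [if_neg hb, if_neg (fun h => hb h.1), zero_mul]
    · rw [if_neg hc]
      refine (Finset.sum_eq_zero fun l _ => ?_).symm
      rw [if_neg (fun h => hc h.2)]

end Pool.CGS
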